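import Mathlib
import Pool.Agent.TH76.BinPart.Final
import Pool.Agent.TH76.BinPart.B2

/-!
# Divisibility of the binary partition function: the moduli dividing `4p`

For every odd prime `p` and every divisor `h` of `4p` there are infinitely many `n` such that
`h` divides the number of partitions of `n` into powers of two.
-/

namespace Pool.Agent.Results.MP_6550b3_nt.FourTimesPrime

open Pool.Agent.TH76.BinPart

theorem result :
    ∀ p : ℕ, p.Prime → p ≠ 2 → ∀ h : ℕ, h ∣ 4 * p →
      {n : ℕ | h ∣ Nat.card {π : Nat.Partition n // ∀ x ∈ π.parts, ∃ k : ℕ, x = 2 ^ k}}.Infinite := by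
  intro p hp hp2 h hh
  have : Fact p.Prime := ⟨hp⟩
  apply Set.infinite_of_not_bddAbove
  rintro ⟨B, hB⟩
  obtain ⟨n, hn, hn4, hz⟩ := exists_zero hp hp2 (B+1)
  have h1 : p ∣ an n := by
    rw [← ZMod.natCast_eq_zero_iff, an_cast]
    exact hz
  have h2 : 4 ∣ an n := four_dvd n hn4
  have hcop : Nat.Coprime 4 p := by
    have : Nat.Coprime 2 p := (Nat.coprime_primes Nat.prime_two hp).mpr (Ne.symm hp2)
    have h3 : Nat.Coprime (2^2) p := Nat.Coprime.pow_left 2 this
    simpa using h3
  have h3 : 4 * p ∣ an n := Nat.Coprime.mul_dvd_of_dvd_of_dvd hcop h2 h1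
  have h4 : (2*n) ∈ {n : ℕ | h ∣ Nat.card {π : Nat.Partition n // ∀ x ∈ π.parts, ∃ k : ℕ, x = 2 ^ k}} :=
    hh.trans h3
  have := hB h4
  omega

end Pool.Agent.Results.MP_6550b3_nt.FourTimesPrime
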